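import Mathlib
import Pool.Agent.Q261.ST.Final
set_option autoImplicit false

/-!
# Spherical partial Fourier integrals at generic times of the Schrödinger flow

For `g` in `L²(ℝⁿ)` let `S g s R` be the spherical partial Fourier integral of radius `R` of the
function `f_s` with Fourier transform `exp(-2πis|ξ|²) g(ξ)`, that is, of the solution at the time `s`
of the free Schrödinger equation whose initial value `f` has Fourier transform `g`. By Plancherel
every `f` in `L²` occurs, and `∫ |g|² = ∫ |f|²`. In particular `S g 0 R = S_R f`.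

* For every finite measure `ν` on the times which satisfies a logarithmic Dini condition (weaker
  than `ν(I) ≤ C |I|^γ` for some `γ > 0`) the maximal inequality of the question holds, on average
  with respect to `ν`, locally in space, uniformly in the position of the unit ball:
  `∫ ∫_{|x - x₀| ≤ 1} sup_R |S g s R x|² dx dν(s) ≤ C ‖g‖₂²`.
* Hence for every `g` in `L²` the partial integrals `S g s R x` converge, as `R → ∞`, for almost all
  `x`, for all times `s` up to an exceptional set `N(g)` which is a null set for all these `ν`. It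
  has Lebesgue measure zero, and each of its compact subsets has Hausdorff dimension zero.
-/

namespace Pool.Agent.Results.MP_c4dc6d_an.SchrodingerTimes

open MeasureTheory Complex Set Filter Topology Metric
open scoped ENNReal NNReal RealInnerProductSpace

/-- `n`-dimensional space -/
abbrev E (n : ℕ) := EuclideanSpace ℝ (Fin n)

/-- The partial integral over the ball of radius `R` at the time `s`. -/
noncomputable def S {n : ℕ} (g : E n → ℂ) (s R : ℝ) (x : E n) : ℂ :=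
  ∫ ξ in closedBall (0 : E n) R, cexp ((2 * Real.pi * (⟪x, ξ⟫ - s * ‖ξ‖ ^ 2) : ℝ) * I) * g ξ

/-- A logarithmic Dini condition: the `ν`-measure of every interval of length `2 · 2^{-k}` is at
most `h k`, where the sum of `(k + 1)² √(h k)` is finite. -/
def LogRegular (ν : Measure ℝ) : Prop :=
  ∃ h : ℕ → ℝ, (∀ k, 0 ≤ h k) ∧
    (∀ k s, ν (closedBall s ((1 / 2) ^ k)) ≤ ENNReal.ofReal (h k)) ∧
    Summable fun k : ℕ => ((k : ℝ) + 1) ^ 2 * Real.sqrt (h k)

/-- The spherical partial integrals converge almost everywhere at the time `s`. -/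
def Converges {n : ℕ} (g : E n → ℂ) (s : ℝ) : Prop :=
  ∀ᵐ x : E n, ∃ z : ℂ, Tendsto (fun R => S g s R x) atTop (𝓝 z)

/-- The maximal inequality on average over the times, on the unit balls. -/
def Maximal (n : ℕ) (ν : Measure ℝ) : Prop :=
  ∃ C : ℝ≥0, ∀ (g : E n → ℂ) (x₀ : E n), MemLp g 2 volume →
    ∫⁻ s, (∫⁻ x in closedBall x₀ 1, (⨆ R : ℝ, ‖S g s R x‖ₑ) ^ 2) ∂ν ≤ C * ∫⁻ ξ, ‖g ξ‖ₑ ^ 2

/-- The `ν`-measure of every interval of radius `r ≤ 1` is at most `C r^γ`. -/
def Holder (ν : Measure ℝ) (C γ : ℝ) : Prop :=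
  ∀ (x r : ℝ), 0 < r → r ≤ 1 → ν (closedBall x r) ≤ ENNReal.ofReal (C * r ^ γ)

lemma S_eq {n : ℕ} (hn : 2 ≤ n) (g : E n → ℂ) (s : ℝ) {R : ℝ} (hR : 0 ≤ R)
    (x : E n) : S g s R x = Q261.ST.P g s x (R ^ 2) := by
  have : Nonempty (Fin n) := ⟨⟨0, by omega⟩⟩
  unfold S Q261.ST.P Q261.ST.c Q261.ST.ph
  apply setIntegral_congr_set
  have h1 : Q261.ST.Ba (E n) (R ^ 2) = ball 0 R := by
    ext ξ
    simp only [Q261.ST.Ba, mem_setOf_eq, mem_ball_zero_iff]
    exact sq_lt_sq₀ (norm_nonneg _) hR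
  rw [h1, ← sphere_union_ball]
  have h2 : (sphere (0 : E n) R : Set (E n)) =ᵐ[volume] (∅ : Set (E n)) := by
    rw [ae_eq_empty]
    exact Measure.addHaar_sphere _ _ _
  have h3 := h2.union (ae_eq_refl (ball (0 : E n) R : Set (E n)))
  rwa [empty_union] at h3

lemma S_neg {n : ℕ} (g : E n → ℂ) (s : ℝ) {R : ℝ} (hR : R < 0)
    (x : E n) : S g s R x = 0 := by
  unfold S
  rw [closedBall_eq_empty.2 hR]
  simp

lemma conv_iff {n : ℕ} (hn : 2 ≤ n) (g : E n → ℂ) (s : ℝ) (x : E n)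
    (h : ∃ z : ℂ, Tendsto (fun l => Q261.ST.P g s x l) atTop (𝓝 z)) :
    ∃ z : ℂ, Tendsto (fun R => S g s R x) atTop (𝓝 z) := by
  obtain ⟨z, hz⟩ := h
  refine ⟨z, ?_⟩
  have h1 := hz.comp (tendsto_pow_atTop (α := ℝ) (n := 2) (by norm_num))
  refine h1.congr' ?_
  filter_upwards [eventually_ge_atTop 0] with R hR
  rw [S_eq hn g s hR x]
  rfl

lemma converges_ae {n : ℕ} (hn : 2 ≤ n) (ν : Measure ℝ) [IsFiniteMeasure ν] (hν : LogRegular ν)
    {g : E n → ℂ} (hg : MemLp g 2 volume) : ∀ᵐ s ∂ν, Converges g s := by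
  have h1 := Q261.ST.conv_ae ν hν hg
  filter_upwards [h1] with s hs
  filter_upwards [hs] with x hx
  exact conv_iff hn g s x hx

/-- translation in space is a modulation -/
lemma translate {n : ℕ} (g : E n → ℂ) (s : ℝ) (x x₀ : E n) (l : ℝ) :
    Q261.ST.P g s x l = Q261.ST.P (fun ξ => cexp ((2 * Real.pi * ⟪x₀, ξ⟫ : ℝ) * I) * g ξ) s (x - x₀) l := by
  unfold Q261.ST.P Q261.ST.c Q261.ST.ph
  congr 1
  funext ξ
  rw [← mul_assoc, ← Complex.exp_add]
  congr 2
  rw [inner_sub_left]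
  push_cast
  ring

lemma memLp_mod {n : ℕ} {g : E n → ℂ} (hg : MemLp g 2 volume) (x₀ : E n) :
    MemLp (fun ξ => cexp ((2 * Real.pi * ⟪x₀, ξ⟫ : ℝ) * I) * g ξ) 2 volume := by
  refine hg.of_le ?_ (Eventually.of_forall fun ξ => ?_)
  · have h1 : AEStronglyMeasurable (fun ξ : E n => cexp ((2 * Real.pi * ⟪x₀, ξ⟫ : ℝ) * I)) volume := by
      apply Continuous.aestronglyMeasurable
      fun_prop
    exact h1.mul hg.aestronglyMeasurable
  · rw [norm_mul, Q261.ST.norm_e, one_mul]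

lemma maximal {n : ℕ} (hn : 2 ≤ n) (ν : Measure ℝ) [IsFiniteMeasure ν] (hν : LogRegular ν) :
    Maximal n ν := by
  obtain ⟨C, hC⟩ := Q261.ST.weighted (V := E n) ν hν
  refine ⟨(Real.exp Real.pi).toNNReal * C, fun g x₀ hg2 => ?_⟩
  set g' : E n → ℂ := fun ξ => cexp ((2 * Real.pi * ⟪x₀, ξ⟫ : ℝ) * I) * g ξ with hg'
  have hg2' : MemLp g' 2 volume := memLp_mod hg2 x₀
  have h1 := hC g' hg2'
  have h2 : ∫⁻ ξ, ‖g' ξ‖ₑ ^ 2 = ∫⁻ ξ, ‖g ξ‖ₑ ^ 2 := by
    apply lintegral_congr
    intro ξ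
    simp only [hg', enorm_mul]
    rw [← ofReal_norm_eq_enorm (cexp _), Q261.ST.norm_e, ENNReal.ofReal_one, one_mul]
  rw [h2, Q261.ST.lint_wm ν _ ((Q261.ST.measurable_G hg2').pow_const 2)] at h1
  have hmeas : Measurable fun p : ℝ × E n => Q261.ST.G g' p ^ 2 * ENNReal.ofReal (Q261.ST.wt p.2) :=
    ((Q261.ST.measurable_G hg2').pow_const 2).mul
      (Q261.ST.continuous_wt.measurable.comp measurable_snd).ennreal_ofReal
  rw [lintegral_prod _ hmeas.aemeasurable] at h1
  have h3 : ∀ s : ℝ, ∫⁻ x in closedBall x₀ 1, (⨆ R : ℝ, ‖S g s R x‖ₑ) ^ 2 ≤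
      ENNReal.ofReal (Real.exp Real.pi) *
        ∫⁻ x : E n, Q261.ST.G g' (s, x) ^ 2 * ENNReal.ofReal (Q261.ST.wt x) := by
    intro s
    have h4 : ∀ x ∈ closedBall x₀ 1, (⨆ R : ℝ, ‖S g s R x‖ₑ) ^ 2 ≤ ENNReal.ofReal (Real.exp Real.pi) *
        (Q261.ST.G g' (s, x - x₀) ^ 2 * ENNReal.ofReal (Q261.ST.wt (x - x₀))) := by
      intro x hx
      have h5 : (⨆ R : ℝ, ‖S g s R x‖ₑ) ≤ Q261.ST.G g' (s, x - x₀) := by
        apply iSup_le
        intro R
        rcases lt_or_ge R 0 with hR | hR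
        · rw [S_neg g s hR, enorm_zero]
          exact zero_le
        · rw [S_eq hn g s hR, translate _ s x x₀]
          exact Q261.ST.sup_G hg2' (s, x - x₀) (R ^ 2)
      have h6 : 1 ≤ ENNReal.ofReal (Real.exp Real.pi) * ENNReal.ofReal (Q261.ST.wt (x - x₀)) := by
        rw [← ENNReal.ofReal_mul (Real.exp_pos _).le, ← ENNReal.ofReal_one]
        apply ENNReal.ofReal_le_ofReal
        unfold Q261.ST.wt
        rw [← Real.exp_add]
        apply Real.one_le_exp
        have h7 : ‖x - x₀‖ ≤ 1 := by rwa [mem_closedBall, dist_eq_norm] at hx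
        have h8 : ‖x - x₀‖ ^ 2 ≤ 1 := pow_le_one₀ (norm_nonneg _) h7
        have := Real.pi_pos
        nlinarith
      calc (⨆ R : ℝ, ‖S g s R x‖ₑ) ^ 2 ≤ Q261.ST.G g' (s, x - x₀) ^ 2 * 1 := by
            rw [mul_one]
            gcongr
        _ ≤ Q261.ST.G g' (s, x - x₀) ^ 2 * (ENNReal.ofReal (Real.exp Real.pi) *
            ENNReal.ofReal (Q261.ST.wt (x - x₀))) := by gcongr
        _ = _ := by ring
    calc ∫⁻ x in closedBall x₀ 1, (⨆ R : ℝ, ‖S g s R x‖ₑ) ^ 2
        ≤ ∫⁻ x in closedBall x₀ 1, ENNReal.ofReal (Real.exp Real.pi) *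
          (Q261.ST.G g' (s, x - x₀) ^ 2 * ENNReal.ofReal (Q261.ST.wt (x - x₀))) :=
          setLIntegral_mono' isClosed_closedBall.measurableSet h4
      _ ≤ ∫⁻ x, ENNReal.ofReal (Real.exp Real.pi) *
          (Q261.ST.G g' (s, x - x₀) ^ 2 * ENNReal.ofReal (Q261.ST.wt (x - x₀))) :=
          setLIntegral_le_lintegral _ _
      _ = ENNReal.ofReal (Real.exp Real.pi) *
          ∫⁻ x, (Q261.ST.G g' (s, x - x₀) ^ 2 * ENNReal.ofReal (Q261.ST.wt (x - x₀))) :=
          lintegral_const_mul' _ _ ENNReal.ofReal_ne_top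
      _ = _ := by
          rw [lintegral_sub_right_eq_self (fun x : E n => Q261.ST.G g' (s, x) ^ 2 *
            ENNReal.ofReal (Q261.ST.wt x)) x₀]
  calc ∫⁻ s, (∫⁻ x in closedBall x₀ 1, (⨆ R : ℝ, ‖S g s R x‖ₑ) ^ 2) ∂ν
      ≤ ∫⁻ s, ENNReal.ofReal (Real.exp Real.pi) *
        (∫⁻ x : E n, Q261.ST.G g' (s, x) ^ 2 * ENNReal.ofReal (Q261.ST.wt x)) ∂ν := lintegral_mono h3
    _ = ENNReal.ofReal (Real.exp Real.pi) * ∫⁻ s,
        (∫⁻ x : E n, Q261.ST.G g' (s, x) ^ 2 * ENNReal.ofReal (Q261.ST.wt x)) ∂ν :=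
        lintegral_const_mul' _ _ ENNReal.ofReal_ne_top
    _ ≤ ENNReal.ofReal (Real.exp Real.pi) * (C * ∫⁻ ξ, ‖g ξ‖ₑ ^ 2) := mul_le_mul' le_rfl h1
    _ = _ := by
        rw [ENNReal.coe_mul, ← mul_assoc]
        rfl

/-- **Theorem.** The maximal inequality of the question (the plane is the case `n = 2`) for the partial integrals at the
times of the Schrödinger flow, on average over any log-regular measure on the times, and convergence
almost everywhere for every `f` in `L²` at all times outside a set without compact subsets of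
positive dimension. -/
theorem result (n : ℕ) (hn : 2 ≤ n) :
    (∀ ν : Measure ℝ, IsFiniteMeasure ν → LogRegular ν →
      Maximal n ν ∧ ∀ g : E n → ℂ, MemLp g 2 volume → ∀ᵐ s ∂ν, Converges g s) ∧
    (∀ (ν : Measure ℝ) (C γ : ℝ), 0 ≤ C → 0 < γ → Holder ν C γ → LogRegular ν) ∧
    (∀ g : E n → ℂ, MemLp g 2 volume → (∀ᵐ s : ℝ, Converges g s) ∧
      ∀ K : Set ℝ, IsCompact K → (∀ s ∈ K, ¬ Converges g s) → dimH K = 0) := by
  refine ⟨fun ν hfin hν => ⟨maximal hn ν hν, fun g hg => converges_ae hn ν hν hg⟩,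
    fun ν C γ hC hγ h => Q261.ST.logRegular_of_power ν C γ hC hγ h,
    fun g hg => ⟨?_, fun K hK hf => ?_⟩⟩
  · have h1 : ∀ m : ℕ, ∀ᵐ s ∂(volume.restrict (Icc (-(m : ℝ)) m)), Converges g s := by
      intro m
      have hfin : IsFiniteMeasure (volume.restrict (Icc (-(m : ℝ)) m)) := ⟨by
        rw [Measure.restrict_apply_univ, Real.volume_Icc]
        exact ENNReal.ofReal_lt_top⟩
      refine converges_ae hn _ ?_ hg
      apply Q261.ST.logRegular_of_power _ 2 1 (by norm_num) one_pos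
      intro x r hr _
      refine (Measure.restrict_apply_le _ _).trans ?_
      rw [Real.volume_closedBall, Real.rpow_one]
    have h2 : ∀ᵐ s : ℝ, ∀ m : ℕ, s ∈ Icc (-(m : ℝ)) m → Converges g s := by
      rw [ae_all_iff]
      intro m
      exact (ae_restrict_iff' measurableSet_Icc).1 (h1 m)
    filter_upwards [h2] with s hs
    obtain ⟨m, hm⟩ := exists_nat_ge |s|
    exact hs m (abs_le.1 hm)
  · by_contra hd
    obtain ⟨ν, hν, hνK, hlog⟩ := Q261.ST.exists_measure K hK hd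
    have h1 := converges_ae hn ν hlog hg
    have h2 : ∀ᵐ s ∂ν, s ∈ K := by
      rw [ae_iff]
      exact hνK
    have h3 : ∀ᵐ s ∂ν, False := by
      filter_upwards [h1, h2] with s hs hsK
      exact hf s hsK hs
    have h4 : ν univ = 0 := by
      rw [ae_iff] at h3
      simp at h3
    rw [measure_univ] at h4
    exact one_ne_zero h4

end Pool.Agent.Results.MP_c4dc6d_an.SchrodingerTimes
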